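import Pool.Agent.U73.NG.Comb
import Pool.Agent.U73.RN.Iso

/-!
# Runs of consecutive normal gaps between the ordinates of the zeros of zeta

The lemmas on `gam` and `count1` are those of the starting hand-in `MP_af3d17_nt.OrdinateGaps`.
-/

set_option autoImplicit false

open Filter Topology Complex

namespace Pool.Agent.U73.NG

/-- the nontrivial zeros of zeta -/
def zeros : Set ℂ := {s : ℂ | riemannZeta s = 0 ∧ 0 < s.re ∧ s.re < 1}

/-- the number of nontrivial zeros with ordinate in `(T₁, T₂]`, counted with multiplicity -/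
noncomputable def N (T₁ T₂ : ℝ) : ℕ :=
  ∑ᶠ s ∈ {s ∈ zeros | T₁ < s.im ∧ s.im ≤ T₂}, analyticOrderNatAt riemannZeta s

/-- the `n`-th positive ordinate `γ_n` (`n ≥ 1`), in nondecreasing order and repeated according to
multiplicity: the least `t` with at least `n` zeros in `(0, t]` -/
noncomputable def gam (n : ℕ) : ℝ := sInf {t : ℝ | n ≤ N 0 t}

/-- the `n ≥ 1` which start `m` consecutive gaps of size at least `d`, of total length at most `D`, between
the `γ_k` in `(T₁, T₂]` -/
def runsN (m : ℕ) (T₁ T₂ d D : ℝ) : Set ℕ :=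
  {n : ℕ | 1 ≤ n ∧ T₁ < gam n ∧ gam (n + m) ≤ T₂ ∧
    (∀ j, j < m → d ≤ gam (n + j + 1) - gam (n + j)) ∧ gam (n + m) - gam n ≤ D}

lemma N_eq (T₁ T₂ : ℝ) : N T₁ T₂ = H370.NN riemannZeta T₁ T₂ := by
  have h : {s ∈ zeros | T₁ < s.im ∧ s.im ≤ T₂} = H370.zset riemannZeta T₁ T₂ := by
    ext s
    simp only [zeros, H370.zset, Set.mem_ofPred_eq]
    tauto
  unfold N H370.NN H370.mult
  rw [h]

lemma split_card (G : Finset ℝ) {a b c : ℝ} (h1 : a < b) (h2 : b ≤ c) :
    ((G.filter (fun x => x < a)).card : ℝ) + (G.filter (fun x => a ≤ x ∧ x < b)).card ≤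
      (G.filter (fun x => x < c)).card := by
  classical
  have h : (G.filter (fun x => x < a)).card + (G.filter (fun x => a ≤ x ∧ x < b)).card ≤
      (G.filter (fun x => x < c)).card := by
    rw [← Finset.card_union_of_disjoint]
    · refine Finset.card_le_card ?_
      intro x hx
      simp only [Finset.mem_union, Finset.mem_filter] at hx ⊢
      rcases hx with ⟨h, h'⟩ | ⟨h, h', h''⟩
      · exact ⟨h, by linarith⟩
      · exact ⟨h, by linarith⟩
    · rw [Finset.disjoint_left]
      intro x hx hy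
      simp only [Finset.mem_filter] at hx hy
      linarith [hx.2, hy.2.1]
  exact_mod_cast h

lemma chain (G O : Finset ℝ) {r : ℝ} (hr : 0 ≤ r) (J : Finset ℝ) :
    (∀ a ∈ J, ∀ b ∈ J, a < b → (1 : ℝ) ≤ (G.filter (fun x => a ≤ x ∧ x < b)).card +
      r * (O.filter (fun x => a ≤ x ∧ x < b)).card) →
    ∀ b : ℝ, (∀ x ∈ J, x ≤ b) → (J.card : ℝ) ≤ 1 + (G.filter (fun x => x < b)).card +
      r * (O.filter (fun x => x < b)).card := by
  classical
  induction J using Finset.induction_on_max with
  | empty =>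
    intro _ b _
    simp only [Finset.card_empty, Nat.cast_zero]
    positivity
  | insert a s has ih =>
    intro hJ b hb
    have hns : a ∉ s := fun h => lt_irrefl a (has a h)
    rw [Finset.card_insert_of_notMem hns]
    push_cast
    have hab := hb a (Finset.mem_insert_self a s)
    rcases s.eq_empty_or_nonempty with rfl | hne
    · simp only [Finset.card_empty, Nat.cast_zero, zero_add]
      have : (0 : ℝ) ≤ (G.filter (fun x => x < b)).card + r * (O.filter (fun x => x < b)).card := by
        positivity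
      linarith
    · have hm := Finset.max'_mem s hne
      set m := s.max' hne with hmdef
      have h1 := ih (fun x hx y hy => hJ x (Finset.mem_insert_of_mem hx) y
        (Finset.mem_insert_of_mem hy)) m (fun x hx => Finset.le_max' s x hx)
      have h2 := hJ m (Finset.mem_insert_of_mem hm) a (Finset.mem_insert_self a s) (has m hm)
      have h3 := split_card G (has m hm) hab
      have h4 := mul_le_mul_of_nonneg_left (split_card O (has m hm) hab) hr
      rw [mul_add] at h4
      linarith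

lemma cover (O' : Finset ℝ) {a b d : ℝ} (hd : 0 < d)
    (h : ∀ x, a ≤ x → x < b → ∃ o ∈ O', o ≤ x ∧ x < o + d) :
    b - a ≤ d * O'.card := by
  have h1 : MeasureTheory.volume (Set.Ico a b) ≤
      ∑ o ∈ O', MeasureTheory.volume (Set.Ico o (o + d)) := by
    refine (MeasureTheory.measure_mono ?_).trans
      (MeasureTheory.measure_biUnion_finset_le O' fun o => Set.Ico o (o + d))
    intro x hx
    obtain ⟨o, ho, h1, h2⟩ := h x hx.1 hx.2
    simp only [Set.mem_iUnion]
    exact ⟨o, ho, h1, h2⟩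
  simp only [Real.volume_Ico, add_sub_cancel_left, Finset.sum_const, nsmul_eq_mul] at h1
  rw [← ENNReal.ofReal_natCast, ← ENNReal.ofReal_mul (by positivity)] at h1
  have := (ENNReal.ofReal_le_ofReal_iff (by positivity)).mp h1
  linarith

/-- separated points meet every cluster essentially once -/
lemma count1 (W : Set ℝ) (O J G : Finset ℝ) {T1 T2 d D : ℝ} (hd : 0 < d) (hD : 0 < D)
    (hO : ∀ x, x ∈ O ↔ x ∈ W ∧ T1 < x ∧ x ≤ T2) (hJ : J ⊆ O)
    (hs : ∀ a ∈ J, ∀ b ∈ J, a < b → D ≤ b - a)
    (hG : ∀ x, x ∈ O → (∀ s ∈ W, ¬ (x < s ∧ s < x + d)) → x ∈ G) :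
    (J.card : ℝ) ≤ 1 + G.card + d / D * O.card := by
  classical
  have hr : 0 ≤ d / D := by positivity
  have key := chain G O hr J (fun a ha b hb hab => ?_) T2 (fun x hx => ((hO x).mp (hJ hx)).2.2)
  · have h1 : ((G.filter (fun x => x < T2)).card : ℝ) ≤ G.card := by
      exact_mod_cast Finset.card_le_card (Finset.filter_subset _ _)
    have h2 : ((O.filter (fun x => x < T2)).card : ℝ) ≤ O.card := by
      exact_mod_cast Finset.card_le_card (Finset.filter_subset _ _)
    have h3 := mul_le_mul_of_nonneg_left h2 hr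
    linarith
  · rcases (G.filter (fun x => a ≤ x ∧ x < b)).eq_empty_or_nonempty with he | hne
    · have hc := cover (O.filter (fun x => a ≤ x ∧ x < b)) (a := a) (b := b) hd (by
        intro x hax hxb
        have hne : (O.filter (fun y => a ≤ y ∧ y ≤ x)).Nonempty :=
          ⟨a, by rw [Finset.mem_filter]; exact ⟨hJ ha, le_rfl, hax⟩⟩
        have hm := Finset.max'_mem _ hne
        have hmax := fun y hy => Finset.le_max' (O.filter (fun y => a ≤ y ∧ y ≤ x)) y hy
        set o := (O.filter (fun y => a ≤ y ∧ y ≤ x)).max' hne with hodef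
        rw [Finset.mem_filter] at hm
        obtain ⟨ho1, ho2, ho3⟩ := hm
        refine ⟨o, ?_, ho3, ?_⟩
        · rw [Finset.mem_filter]; exact ⟨ho1, ho2, by linarith⟩
        · by_contra hcon
          push Not at hcon
          have hoG : o ∉ G := by
            intro hoG
            have : o ∈ G.filter (fun x => a ≤ x ∧ x < b) := by
              rw [Finset.mem_filter]; exact ⟨hoG, ho2, by linarith⟩
            rw [he] at this
            exact absurd this (Finset.notMem_empty _)
          apply hoG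
          refine hG o ho1 fun s hsW hs => ?_
          have hb2 := ((hO b).mp (hJ hb)).2.2
          have ho4 := ((hO o).mp ho1).2.1
          have hsO : s ∈ O := (hO s).mpr ⟨hsW, by linarith [hs.1], by linarith [hs.2]⟩
          have := hmax s (by
            rw [Finset.mem_filter]
            exact ⟨hsO, by linarith [hs.1], by linarith [hs.2]⟩)
          linarith [hs.1])
      rw [he, Finset.card_empty, Nat.cast_zero, zero_add]
      have h1 := (hs a ha b hb hab).trans hc
      rw [div_mul_eq_mul_div, le_div_iff₀ hD]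
      linarith
    · have h1 : (1 : ℝ) ≤ (G.filter (fun x => a ≤ x ∧ x < b)).card := by
        exact_mod_cast Finset.card_pos.mpr hne
      have h2 : 0 ≤ d / D * ((O.filter (fun x => a ≤ x ∧ x < b)).card : ℝ) := by positivity
      linarith


/-- the zeros with ordinate in `(0, t]` -/
noncomputable def Y (t : ℝ) : Finset ℂ := (H370.zeta_zeros_finite t).toFinset

lemma mem_Y {t : ℝ} {s : ℂ} : s ∈ Y t ↔ s ∈ zeros ∧ 0 < s.im ∧ s.im ≤ t := by
  unfold Y
  rw [Set.Finite.mem_toFinset]
  constructor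
  · rintro ⟨h1, h2, h3, h4, h5⟩
    exact ⟨⟨h5, h1, h2⟩, h3, h4⟩
  · rintro ⟨⟨h5, h1, h2⟩, h3, h4⟩
    exact ⟨h1, h2, h3, h4, h5⟩

lemma N_zero (t : ℝ) : N 0 t = ∑ s ∈ Y t, analyticOrderNatAt riemannZeta s := by
  unfold N
  have h : {s ∈ zeros | 0 < s.im ∧ s.im ≤ t} = (Y t : Set ℂ) := by
    ext s
    rw [Finset.mem_coe, mem_Y]
    rfl
  rw [h, finsum_mem_coe_finset]

lemma N_mono {t t' : ℝ} (h : t ≤ t') : N 0 t ≤ N 0 t' := by
  rw [N_zero, N_zero]
  refine Finset.sum_le_sum_of_subset fun s hs => ?_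
  rw [mem_Y] at hs ⊢
  exact ⟨hs.1, hs.2.1, hs.2.2.trans h⟩

lemma N_step {s : ℂ} (hs : s ∈ zeros) (h0 : 0 < s.im) {t : ℝ} (ht : t < s.im) :
    N 0 t + 1 ≤ N 0 s.im := by
  classical
  have h1 : s ∈ Y s.im := mem_Y.mpr ⟨hs, h0, le_rfl⟩
  have h2 : s ∉ Y t := fun h => by
    have := (mem_Y.mp h).2.2
    linarith
  have h3 : Y t ⊆ Y s.im := fun w hw => by
    rw [mem_Y] at hw ⊢
    exact ⟨hw.1, hw.2.1, hw.2.2.trans ht.le⟩
  have h4 : insert s (Y t) ⊆ Y s.im := by
    intro w hw
    rcases Finset.mem_insert.mp hw with rfl | hw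
    · exact h1
    · exact h3 hw
  have h5 := Finset.sum_le_sum_of_subset (f := fun s => analyticOrderNatAt riemannZeta s) h4
  rw [Finset.sum_insert h2] at h5
  have h6 : 1 ≤ H370.mult riemannZeta s := H370.Loc.mult_pos' H370.good_zeta h0 hs.1
  unfold H370.mult at h6
  rw [N_zero, N_zero]
  omega

lemma N_same {t t' : ℝ} (h : t ≤ t') (hno : ∀ s ∈ zeros, ¬ (t < s.im ∧ s.im ≤ t')) :
    N 0 t' ≤ N 0 t := by
  rw [N_zero, N_zero]
  refine Finset.sum_le_sum_of_subset fun s hs => ?_
  rw [mem_Y] at hs ⊢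
  refine ⟨hs.1, hs.2.1, ?_⟩
  by_contra hcon
  push Not at hcon
  exact hno s hs.1 ⟨hcon, hs.2.2⟩

lemma N_unbdd (K : ℕ) : ∃ t : ℝ, K ≤ N 0 t := by
  obtain ⟨T1, hT1⟩ := ((H370.NN_tendsto H370.good_zeta).eventually_ge_atTop (K : ℝ)).exists_forall_of_atTop
  set T0 : ℝ := max T1 1 with hT0
  have h1 := hT1 T0 (le_max_left _ _)
  have hT01 : 1 ≤ T0 := le_max_right _ _
  refine ⟨2 * T0, ?_⟩
  have h2 : K ≤ H370.NN riemannZeta T0 (2 * T0) := by exact_mod_cast h1
  refine h2.trans ?_
  classical
  rw [H370.NN_eq H370.good_zeta (by linarith), N_zero]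
  refine Finset.sum_le_sum_of_subset fun s hs => ?_
  obtain ⟨g1, g2, g3, g4, g5⟩ := (H370.mem_Zf H370.good_zeta (by linarith)).mp hs
  exact mem_Y.mpr ⟨⟨g5, g1, g2⟩, by linarith, g4⟩

/-- `γ_n` at the number of the last zero with a given ordinate -/
lemma gam_at {s : ℂ} (hs : s ∈ zeros) (h0 : 0 < s.im) : gam (N 0 s.im) = s.im := by
  refine IsLeast.csInf_eq ⟨le_refl (N 0 s.im), fun t ht => ?_⟩
  by_contra hcon
  push Not at hcon
  have h1 := N_step hs h0 hcon
  have h2 : N 0 s.im ≤ N 0 t := ht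
  omega

lemma gam_next {t d : ℝ} (hno : ∀ s ∈ zeros, ¬ (t < s.im ∧ s.im < t + d)) :
    t + d ≤ gam (N 0 t + 1) := by
  refine le_csInf ?_ fun t' ht' => ?_
  · obtain ⟨u, hu⟩ := N_unbdd (N 0 t + 1)
    exact ⟨u, hu⟩
  · by_contra hcon
    push Not at hcon
    have h2 : N 0 t + 1 ≤ N 0 t' := ht'
    rcases le_total t' t with h | h
    · have := N_mono h
      omega
    · have := N_same h fun s hs hs2 => hno s hs ⟨hs2.1, by linarith [hs2.2]⟩
      omega


lemma gam_mono {n m : ℕ} (hn : 1 ≤ n) (hnm : n ≤ m) : gam n ≤ gam m := by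
  refine csInf_le_csInf ⟨0, fun t ht => ?_⟩ (N_unbdd m) fun t ht => hnm.trans ht
  by_contra hcon
  push Not at hcon
  have h1 : N 0 t = 0 := by
    rw [N_zero]
    refine Finset.sum_eq_zero fun s hs => ?_
    have h2 := mem_Y.mp hs
    linarith [h2.2.1, h2.2.2]
  have h2 : n ≤ N 0 t := ht
  omega


/-- one more zero -/
lemma N_succ {t t' : ℝ} (h : t ≤ t') (h0 : 0 ≤ t) {z : ℂ} (hz : z ∈ zeros) (h1 : t < z.im)
    (h2 : z.im ≤ t') (hm : analyticOrderNatAt riemannZeta z = 1)
    (hu : ∀ s ∈ zeros, t < s.im → s.im ≤ t' → s = z) : N 0 t' = N 0 t + 1 := by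
  classical
  have h3 : Y t' = insert z (Y t) := by
    ext s
    rw [Finset.mem_insert, mem_Y, mem_Y]
    constructor
    · rintro ⟨a1, a2, a3⟩
      rcases le_or_gt s.im t with h4 | h4
      · exact Or.inr ⟨a1, a2, h4⟩
      · exact Or.inl (hu s a1 h4 a3)
    · rintro (rfl | ⟨a1, a2, a3⟩)
      · exact ⟨hz, by linarith, h2⟩
      · exact ⟨a1, a2, a3.trans h⟩
  have h4 : z ∉ Y t := fun h => by
    have := (mem_Y.mp h).2.2
    linarith
  rw [N_zero, N_zero, h3, Finset.sum_insert h4, hm]
  omega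

/-- the sets of indices that are counted are finite -/
theorem runsN_finite (m : ℕ) (T₁ T₂ d D : ℝ) : (runsN m T₁ T₂ d D).Finite := by
  refine (Set.finite_Iic (N 0 (T₂ + 1))).subset ?_
  rintro n ⟨h1, h2, h3, -, -⟩
  have h5 := gam_mono h1 (Nat.le_add_right n m)
  have hne : {t : ℝ | n ≤ N 0 t}.Nonempty := N_unbdd n
  obtain ⟨t, ht, ht2⟩ := exists_lt_of_csInf_lt hne (show gam n < T₂ + 1 by linarith)
  exact (show n ≤ N 0 t from ht).trans (N_mono ht2.le)

open Pool.Agent.U73.RN Pool.Agent.TH299.RunsL in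
/-- **the deterministic bound** -/
theorem det {T H d D L : ℝ} (hT : 10 ≤ T) (hH : 0 < H) (hd : 0 < d) (hD : d ≤ D) (G : Finset ℝ)
    (hG : ∀ x ∈ G, T < x ∧ x ≤ T + H ∧ riemannZeta (1 / 2 + I * x) = 0 ∧
      H370.mult riemannZeta (1 / 2 + I * x) = 1)
    (hsep : ∀ x ∈ G, ∀ y : ℝ, riemannZeta (1 / 2 + I * y) = 0 → y ≠ x → D ≤ |x - y|)
    (m : ℕ) (hm : 1 ≤ m) (hL : 0 < L) :
    (G.card : ℝ) - 1 - d / D * (N T (T + H) : ℝ) - m -
      (m - 1) * (((N T (T + H) : ℝ) - G.card) / 2) - m * H / L ≤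
      ((runsN m T (T + H) d L).ncard : ℝ) := by
  classical
  have hT1 : (1 : ℝ) ≤ T := by linarith
  have hD0 : 0 < D := lt_of_lt_of_le hd hD
  obtain ⟨S, GA, GB, M, hS, hGA, hGB, hAS, hBA, hNN, hM1, hM2, hM3⟩ :=
    core2 H370.good_zeta (a := T) (b := T + H) hT1
  have hSab : ∀ s ∈ S, T < s ∧ s ≤ T + H := by
    intro γ hγ
    obtain ⟨s, hs, h⟩ := (hS γ).mp hγ
    rw [← h]
    exact ⟨hs.2.2.1, hs.2.2.2.1⟩
  have hGGA : G ⊆ GA := by
    intro x hx
    obtain ⟨a1, a2, a3, a4⟩ := hG x hx
    rw [hGA]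
    exact ⟨⟨by rw [half_re]; norm_num, by rw [half_re]; norm_num, by rw [half_im]; exact a1,
      by rw [half_im]; exact a2, a3⟩, a4⟩
  have hGS : G ⊆ S := hGGA.trans hAS
  have hMpos : ∀ x ∈ S, 1 ≤ M x := by
    intro x hx
    by_cases hB : x ∈ GB
    · rw [hM1 x hB]
    · have := hM2 x hx hB
      omega
  set w : ℝ → ℕ := fun x => M x - if x ∈ G then 1 else 0 with hw
  -- the big clusters
  have hbig := big_card S G M w (d := d) hMpos
    (by
      intro x hx h2
      have hB : x ∉ GB := fun h => by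
        have := hM1 x h
        omega
      rw [hw]
      by_cases h3 : x ∈ G
      · have := hM3 x (hGGA h3) hB
        simp only [if_pos h3]
        omega
      · simp only [if_neg h3]
        omega)
    (by
      intro x hx h3
      rw [hw]
      simp only [if_neg h3]
      have := hMpos x hx
      omega)
    (by
      intro x hx y hy hne hMy
      have hB : y ∈ GB := by
        by_contra h
        have := hM2 y hy h
        omega
      exact hD.trans (hsep x hx y ((hGA y).mp (hBA hB)).1.2.2.2.2 hne))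
  have hNw : N T (T + H) = ∑ x ∈ S, w x + G.card := by
    rw [N_eq, hNN, card_ite hGS, ← Finset.sum_add_distrib]
    refine Finset.sum_congr rfl fun x hx => ?_
    have := hMpos x hx
    rw [hw]
    by_cases h3 : x ∈ G
    · simp only [if_pos h3]; omega
    · simp only [if_neg h3]; omega
  have hSN : (S.card : ℝ) ≤ N T (T + H) := by
    have h1 : S.card ≤ N T (T + H) := by
      rw [N_eq, hNN, Finset.card_eq_sum_ones]
      exact Finset.sum_le_sum hMpos
    exact_mod_cast h1
  -- the number of the clusters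
  have hE := count1 (S : Set ℝ) S G (lastE S d) (T1 := T) (T2 := T + H) hd hD0
    (fun x => ⟨fun h => ⟨h, hSab x h⟩, fun h => h.1⟩) hGS
    (fun a ha b hb hab => by
      have := hsep a ha b (hG b hb).2.2.1 hab.ne'
      rwa [abs_sub_comm, abs_of_pos (by linarith)] at this)
    (fun x hx h => mem_lastE.mpr ⟨hx, fun y hy => h y hy⟩)
  have hrun := count' (lastE S d) (bigE S M d) (bigE_sub S M d) T (T + H)
    (fun s hs => hSab s (mem_lastE.mp hs).1) (by linarith) m hm L hL
  -- from the runs of clusters to the indices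
  have hle : {t : ℝ | RunE (lastE S d) (bigE S M d) m L t}.ncard ≤
      (runsN m T (T + H) d L).ncard := by
    refine Set.ncard_le_ncard_of_injOn (fun t => N 0 t) ?_ ?_ (runsN_finite m T (T + H) d L)
    · rintro t ⟨u, h0, h1, h2, h3, h4, h5⟩
      -- ordinates
      have hord : ∀ x ∈ S, ∃ s ∈ zeros, s.im = x := by
        intro x hx
        obtain ⟨s, hs, h⟩ := (hS x).mp hx
        exact ⟨s, ⟨hs.2.2.2.2, hs.1, hs.2.1⟩, h⟩
      have huS : ∀ j, j ≤ m → u j ∈ S := fun j hj => (mem_lastE.mp (h2 j hj)).1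
      have hgam : ∀ j, j ≤ m → gam (N 0 (u j)) = u j := by
        intro j hj
        obtain ⟨s, hs, h⟩ := hord _ (huS j hj)
        rw [← h]
        exact gam_at hs (by rw [h]; linarith [(hSab _ (huS j hj)).1])
      -- no zeros just after `u j`
      have hnext : ∀ j, j < m → ∀ s ∈ zeros, ¬ (u j < s.im ∧ s.im < u j + d) := by
        rintro j hj s hs ⟨a1, a2⟩
        have h6 := (mem_lastE.mp (h2 j hj.le)).2
        have h7 := huS (j + 1) hj
        rcases le_or_gt s.im (T + H) with h8 | h8
        · exact h6 s.im ((hS _).mpr ⟨s, ⟨hs.2.1, hs.2.2, (hSab _ (huS j hj.le)).1.trans a1, h8,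
            hs.1⟩, rfl⟩) ⟨a1, a2⟩
        · exact h6 _ h7 ⟨h1 j hj, by linarith [(hSab _ h7).2]⟩
      -- the indices
      have hidx : ∀ j, j < m → N 0 (u j) = N 0 (u 0) + j := by
        intro j
        induction j with
        | zero => intro _; rfl
        | succ j ih =>
          intro hj
          have ih' := ih (by omega)
          have h6 := h3 (j + 1) (by omega) hj
          have h7 := h2 (j + 1) hj.le
          have h8 : cl S d (u (j + 1)) = {u (j + 1)} ∧ M (u (j + 1)) = 1 := by
            by_contra hcon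
            exact h6 (mem_bigE.mpr ⟨h7, hcon⟩)
          have hB : u (j + 1) ∈ GB := by
            by_contra h
            have := hM2 _ (huS (j + 1) hj.le) h
            omega
          have hA := (hGA _).mp (hBA hB)
          have hun := ((hGB _).mp hB).2
          have hlt := h1 j (by omega)
          have h9 : N 0 (u (j + 1)) = N 0 (u j) + 1 := by
            refine N_succ (z := 1 / 2 + I * (u (j + 1) : ℂ)) hlt.le
              (by linarith [(hSab _ (huS j (by omega))).1]) ⟨hA.1.2.2.2.2, hA.1.1, hA.1.2.1⟩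
              (by rw [half_im]; exact hlt) (by rw [half_im]) hA.2 ?_
            intro s hs a1 a2
            have hsz : s ∈ H370.zset riemannZeta T (T + H) :=
              ⟨hs.2.1, hs.2.2, (hSab _ (huS j (by omega))).1.trans a1,
                a2.trans (hSab _ (huS (j + 1) hj.le)).2, hs.1⟩
            have hsS : s.im ∈ S := (hS _).mpr ⟨s, hsz, rfl⟩
            rcases a2.eq_or_lt with h10 | h10
            · exact hun s hsz h10
            · exfalso
              have h11 : s.im ∈ cl S d (u (j + 1)) := by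
                refine mem_cl.mpr ⟨hsS, a2, fun e' he' hh => ?_⟩
                exact h4 j (by omega) e' he' ⟨lt_of_lt_of_le a1 hh.1, hh.2⟩
              rw [h8.1, Finset.mem_singleton] at h11
              linarith
          rw [h9, ih']
          ring
      have hgn : ∀ j, j < m → gam (N 0 (u 0) + j) = u j := fun j hj => by
        rw [← hidx j hj]
        exact hgam j hj.le
      have hstep : ∀ j, j < m → u j + d ≤ gam (N 0 (u 0) + j + 1) := by
        intro j hj
        rw [← hidx j hj]
        exact gam_next (hnext j hj)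
      have hpos : 1 ≤ N 0 (u 0) := by
        obtain ⟨s, hs, h⟩ := hord _ (huS 0 (Nat.zero_le _))
        have h6 := N_step hs (by rw [h]; linarith [(hSab _ (huS 0 (Nat.zero_le _))).1])
          (t := s.im - 1) (by linarith)
        rw [h] at h6
        omega
      have hlast : gam (N 0 (u 0) + m) ≤ u m := by
        obtain ⟨k, rfl⟩ : ∃ k, m = k + 1 := ⟨m - 1, by omega⟩
        have h6 := hidx k (by omega)
        obtain ⟨s, hs, h⟩ := hord _ (huS (k + 1) le_rfl)
        have h7 := N_step hs (by rw [h]; linarith [(hSab _ (huS (k + 1) le_rfl)).1])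
          (t := u k) (by rw [h]; exact h1 k (by omega))
        rw [h] at h7
        rw [← hgam (k + 1) le_rfl]
        exact gam_mono (by omega) (by omega)
      rw [← h0]
      refine ⟨hpos, ?_, ?_, fun j hj => ?_, ?_⟩
      · rw [hgam 0 (Nat.zero_le _)]
        exact (hSab _ (huS 0 (Nat.zero_le _))).1
      · exact hlast.trans (hSab _ (huS m le_rfl)).2
      · rw [hgn j hj]
        linarith [hstep j hj]
      · rw [hgam 0 (Nat.zero_le _)]
        linarith
    · rintro t ⟨u, h0, -, h2, -⟩ t' ⟨u', h0', -, h2', -⟩ h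
      have hx : ∀ x ∈ lastE S d, gam (N 0 x) = x := by
        intro x hx
        obtain ⟨s, hs, h⟩ := (hS x).mp (mem_lastE.mp hx).1
        rw [← h]
        exact gam_at ⟨hs.2.2.2.2, hs.1, hs.2.1⟩ (by linarith [hs.2.2.1])
      have a1 := hx t (h0 ▸ h2 0 (Nat.zero_le _))
      have a2 := hx t' (h0' ▸ h2' 0 (Nat.zero_le _))
      rw [← a1, ← a2]
      exact congrArg gam h
  have hle' : ({t : ℝ | RunE (lastE S d) (bigE S M d) m L t}.ncard : ℝ) ≤
      ((runsN m T (T + H) d L).ncard : ℝ) := by exact_mod_cast hle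
  have hbig' : ((bigE S M d).card : ℝ) ≤ ((N T (T + H) : ℝ) - G.card) / 2 := by
    have h1 : 2 * (bigE S M d).card + G.card ≤ N T (T + H) := by omega
    have h2 : 2 * ((bigE S M d).card : ℝ) + G.card ≤ N T (T + H) := by exact_mod_cast h1
    linarith
  have hm' : (0 : ℝ) ≤ (m : ℝ) - 1 := by
    have : (1 : ℝ) ≤ m := by exact_mod_cast hm
    linarith
  have h6 := mul_le_mul_of_nonneg_left hbig' hm'
  have h7 : d / D * (S.card : ℝ) ≤ d / D * N T (T + H) :=
    mul_le_mul_of_nonneg_left hSN (by positivity)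
  rw [show T + H - T = H by ring] at hrun
  linarith

end Pool.Agent.U73.NG
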