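import Pool.Agent.TH299.Runs

/-!
# Runs of clusters of a finite set of reals

`O` is a finite set of reals in `(a, b]` with multiplicities `M`, `d > 0`.  The clusters of `O` are the
maximal sets of consecutive points with steps less than `d`; they are represented by their last
points.  A cluster is big if it has total multiplicity at least two.
-/

set_option autoImplicit false

namespace Pool.Agent.U73.NG

open Finset Pool.Agent.TH299.Runs

/-- the index version: only the inner points of the runs have to be good -/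
lemma count_index' (f : ℕ → ℝ) (hf : Monotone f) (a b : ℝ) (ha : ∀ i, a ≤ f i) (hb : ∀ i, f i ≤ b)
    (n m : ℕ) (hm : 1 ≤ m) (P : ℕ → Prop) [DecidablePred P] (L : ℝ) (hL : 0 < L) :
    (n : ℝ) - m - (m - 1) * (((range n).filter fun i => ¬ P i).card : ℝ) - m * (b - a) / L ≤
    (((range n).filter fun i => (i + m < n) ∧ (∀ j, 1 ≤ j → j < m → P (i + j)) ∧
      f (i + m) - f i ≤ L).card : ℝ) := by
  classical
  set B := (range n).filter fun i => ¬ P i
  set R := (range n).filter fun i => (i + m < n) ∧ (∀ j, 1 ≤ j → j < m → P (i + j)) ∧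
    f (i + m) - f i ≤ L
  set E := (range n).filter fun i => n ≤ i + m
  set D := fun j : ℕ => (range n).filter fun i => (i + j) ∈ B
  set Q := (range n).filter fun i => L < f (i + m) - f i
  have hcover : range n ⊆ R ∪ (E ∪ ((Finset.Icc 1 (m - 1)).biUnion D ∪ Q)) := by
    intro i hi
    rw [mem_range] at hi
    simp only [R, E, D, Q, B, mem_union, mem_biUnion, mem_filter, mem_range, mem_Icc]
    by_cases h1 : n ≤ i + m
    · right; left; exact ⟨hi, h1⟩
    · push Not at h1
      by_cases h2 : ∀ j, 1 ≤ j → j < m → P (i + j)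
      · by_cases h3 : f (i + m) - f i ≤ L
        · left; exact ⟨hi, h1, h2, h3⟩
        · right; right; right; exact ⟨hi, lt_of_not_ge h3⟩
      · push Not at h2
        obtain ⟨j, hj1, hj2, hj3⟩ := h2
        right; right; left
        exact ⟨j, ⟨hj1, by omega⟩, hi, by omega, hj3⟩
  have hE : E.card ≤ m := by
    have : E ⊆ Finset.Ico (n - m) n := by
      intro i hi
      simp only [E, mem_filter, mem_range] at hi
      rw [mem_Ico]; omega
    calc E.card ≤ (Finset.Ico (n - m) n).card := card_le_card this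
      _ ≤ m := by rw [Nat.card_Ico]; omega
  have hD : ∀ j, (D j).card ≤ B.card := by
    intro j
    refine Finset.card_le_card_of_injOn (fun i => i + j) ?_ ?_
    · intro i hi
      simp only [D, coe_filter, Set.mem_ofPred_eq] at hi
      exact hi.2
    · intro i _ i' _ h
      simpa using h
  have hDD : ((Finset.Icc 1 (m - 1)).biUnion D).card ≤ (m - 1) * B.card := by
    refine (card_biUnion_le).trans ?_
    refine (Finset.sum_le_sum fun j _ => hD j).trans ?_
    simp
  have hQ : (Q.card : ℝ) ≤ m * (b - a) / L := by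
    rw [le_div_iff₀ hL]
    have h1 : (Q.card : ℝ) * L = ∑ i ∈ Q, L := by simp
    rw [h1]
    calc ∑ i ∈ Q, L ≤ ∑ i ∈ Q, (f (i + m) - f i) := by
          refine Finset.sum_le_sum fun i hi => ?_
          simp only [Q, mem_filter] at hi
          exact hi.2.le
      _ ≤ ∑ i ∈ range n, (f (i + m) - f i) := by
          refine Finset.sum_le_sum_of_subset_of_nonneg (Finset.filter_subset _ _) fun i _ _ => ?_
          exact sub_nonneg.mpr (hf (Nat.le_add_right _ _))
      _ ≤ m * (b - a) := sum_diff_le f a b ha hb n m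
  have h1 : n ≤ R.card + (E.card + (((Finset.Icc 1 (m - 1)).biUnion D).card + Q.card)) := by
    have h0 := card_le_card hcover
    rw [card_range] at h0
    refine h0.trans ?_
    refine (card_union_le _ _).trans ?_
    gcongr
    refine (card_union_le _ _).trans ?_
    gcongr
    exact card_union_le _ _
  have h2 : (n : ℝ) ≤ R.card + (m + ((m - 1) * B.card + Q.card)) := by
    have h0 : (n : ℝ) ≤ R.card + (E.card + (((Finset.Icc 1 (m - 1)).biUnion D).card + Q.card)) := by
      exact_mod_cast h1
    have h3 : (E.card : ℝ) ≤ m := by exact_mod_cast hE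
    have h4 : (((Finset.Icc 1 (m - 1)).biUnion D).card : ℝ) ≤ (m - 1) * B.card := by
      have h5 : (((Finset.Icc 1 (m - 1)).biUnion D).card : ℝ) ≤ ((m - 1 : ℕ) : ℝ) * B.card := by
        exact_mod_cast hDD
      rwa [Nat.cast_sub hm, Nat.cast_one] at h5
    linarith
  linarith

/-- `t` starts a run of `m + 1` consecutive elements of `S`, the inner ones not in `B`, of total
length at most `L` -/
def RunE (S B : Finset ℝ) (m : ℕ) (L t : ℝ) : Prop :=
  ∃ u : ℕ → ℝ, u 0 = t ∧ (∀ j, j < m → u j < u (j + 1)) ∧ (∀ j, j ≤ m → u j ∈ S) ∧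
    (∀ j, 1 ≤ j → j < m → u j ∉ B) ∧
    (∀ j, j < m → ∀ s ∈ S, ¬ (u j < s ∧ s < u (j + 1))) ∧ u m - u 0 ≤ L

/-- **counting runs, with conditions only on the inner points** -/
theorem count' (S B : Finset ℝ) (hB : B ⊆ S) (a b : ℝ) (hS : ∀ s ∈ S, a < s ∧ s ≤ b) (hab : a ≤ b)
    (m : ℕ) (hm : 1 ≤ m) (L : ℝ) (hL : 0 < L) :
    (S.card : ℝ) - m - (m - 1) * (B.card : ℝ) - m * (b - a) / L ≤
      ({t : ℝ | RunE S B m L t}.ncard : ℝ) := by
  classical
  set n := S.card with hn
  set e := S.orderEmbOfFin hn.symm with he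
  have hmem : ∀ i, e i ∈ S := fun i => Finset.orderEmbOfFin_mem S hn.symm i
  set f : ℕ → ℝ := fun i => if h : i < n then e ⟨i, h⟩ else b with hf
  have hfi : ∀ (i : ℕ) (h : i < n), f i = e ⟨i, h⟩ := fun i h => by simp [hf, h]
  have hmono : Monotone f := by
    intro i j hij
    by_cases hj : j < n
    · have hi : i < n := lt_of_le_of_lt hij hj
      rw [hfi i hi, hfi j hj]
      exact e.monotone (by simpa using hij)
    · have : f j = b := by simp [hf, hj]
      rw [this]
      by_cases hi : i < n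
      · rw [hfi i hi]; exact (hS _ (hmem _)).2
      · simp [hf, hi]
  have ha : ∀ i, a ≤ f i := by
    intro i
    by_cases hi : i < n
    · rw [hfi i hi]; exact (hS _ (hmem _)).1.le
    · simp [hf, hi, hab]
  have hb : ∀ i, f i ≤ b := by
    intro i
    by_cases hi : i < n
    · rw [hfi i hi]; exact (hS _ (hmem _)).2
    · simp [hf, hi]
  have hinj : Set.InjOn f (Set.Iio n) := by
    intro i hi j hj h
    rw [hfi i hi, hfi j hj] at h
    exact congrArg Fin.val (e.injective h)
  have hsurj : ∀ s ∈ S, ∃ i, i < n ∧ f i = s := by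
    intro s hs
    have : s ∈ Set.range e := by
      rw [he, Finset.range_orderEmbOfFin]; exact hs
    obtain ⟨i, hi⟩ := this
    exact ⟨i, i.2, by rw [hfi i i.2]; exact hi⟩
  have key := count_index' f hmono a b ha hb n m hm (fun i => f i ∉ B) L hL
  have hBc : ((range n).filter fun i => ¬ (f i ∉ B)).card = B.card := by
    refine Finset.card_bij (fun i _ => f i) ?_ ?_ ?_
    · intro i hi; exact not_not.mp (mem_filter.mp hi).2
    · intro i hi j hj h
      exact hinj (by simpa using (mem_filter.mp hi).1) (by simpa using (mem_filter.mp hj).1) h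
    · intro s hs
      obtain ⟨i, hi, h⟩ := hsurj s (hB hs)
      exact ⟨i, mem_filter.mpr ⟨mem_range.mpr hi, by rw [h]; exact not_not.mpr hs⟩, h⟩
  rw [hBc] at key
  refine key.trans ?_
  have hfin : {t : ℝ | RunE S B m L t}.Finite := by
    refine S.finite_toSet.subset ?_
    rintro t ⟨u, h0, -, hu, -⟩
    rw [← h0]; exact hu 0 (Nat.zero_le _)
  have hle : ((range n).filter fun i => (i + m < n) ∧ (∀ j, 1 ≤ j → j < m → f (i + j) ∉ B) ∧
      f (i + m) - f i ≤ L).card ≤ {t : ℝ | RunE S B m L t}.ncard := by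
    rw [← Set.ncard_coe_finset]
    refine Set.ncard_le_ncard_of_injOn f ?_ ?_ hfin
    · intro i hi
      simp only [coe_filter, Set.mem_ofPred_eq, mem_range] at hi
      obtain ⟨hi, him, hP, hlen⟩ := hi
      refine ⟨fun j => f (i + j), rfl, ?_, ?_, hP, ?_, hlen⟩
      · intro j hj
        have h1 : i + j < n := by omega
        have h2 : i + (j + 1) < n := by omega
        show f (i + j) < f (i + (j + 1))
        rw [hfi _ h1, hfi _ h2]
        apply e.strictMono
        rw [Fin.lt_def]
        show i + j < i + (j + 1)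
        omega
      · intro j hj
        have h1 : i + j < n := by omega
        show f (i + j) ∈ S
        rw [hfi _ h1]
        exact hmem _
      · rintro j hj s hs ⟨h1, h2⟩
        obtain ⟨k, hk, rfl⟩ := hsurj s hs
        rcases le_or_gt k (i + j) with h3 | h3
        · exact absurd (hmono h3) (not_le.mpr h1)
        · exact absurd (hmono (show i + (j + 1) ≤ k by omega)) (not_le.mpr h2)
    · intro i hi j hj h
      simp only [coe_filter, Set.mem_ofPred_eq, mem_range] at hi hj
      exact hinj hi.1 hj.1 h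
  exact_mod_cast hle

open scoped Classical in
/-- the last points of the clusters -/
noncomputable def lastE (O : Finset ℝ) (d : ℝ) : Finset ℝ :=
  O.filter fun x => ∀ y ∈ O, ¬ (x < y ∧ y < x + d)

open scoped Classical in
/-- the cluster with the last point `e` -/
noncomputable def cl (O : Finset ℝ) (d e : ℝ) : Finset ℝ :=
  O.filter fun x => x ≤ e ∧ ∀ e' ∈ lastE O d, ¬ (x ≤ e' ∧ e' < e)

open scoped Classical in
/-- the last points of the big clusters -/
noncomputable def bigE (O : Finset ℝ) (M : ℝ → ℕ) (d : ℝ) : Finset ℝ :=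
  (lastE O d).filter fun e => ¬ (cl O d e = {e} ∧ M e = 1)

lemma mem_lastE {O : Finset ℝ} {d x : ℝ} :
    x ∈ lastE O d ↔ x ∈ O ∧ ∀ y ∈ O, ¬ (x < y ∧ y < x + d) := by
  unfold lastE
  exact Finset.mem_filter

lemma mem_cl {O : Finset ℝ} {d e x : ℝ} :
    x ∈ cl O d e ↔ x ∈ O ∧ x ≤ e ∧ ∀ e' ∈ lastE O d, ¬ (x ≤ e' ∧ e' < e) := by
  unfold cl
  exact Finset.mem_filter

lemma mem_bigE {O : Finset ℝ} {M : ℝ → ℕ} {d e : ℝ} :
    e ∈ bigE O M d ↔ e ∈ lastE O d ∧ ¬ (cl O d e = {e} ∧ M e = 1) := by
  unfold bigE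
  exact Finset.mem_filter

lemma bigE_sub (O : Finset ℝ) (M : ℝ → ℕ) (d : ℝ) : bigE O M d ⊆ lastE O d := fun _ h =>
  (mem_bigE.mp h).1

lemma cl_disj {O : Finset ℝ} {d : ℝ} :
    ((lastE O d : Finset ℝ) : Set ℝ).PairwiseDisjoint (cl O d) := by
  classical
  have key : ∀ e ∈ lastE O d, ∀ e' ∈ lastE O d, e < e' → Disjoint (cl O d e) (cl O d e') := by
    intro e he e' _ hlt
    rw [Finset.disjoint_left]
    intro x hx hx'
    exact (mem_cl.mp hx').2.2 e he ⟨(mem_cl.mp hx).2.1, hlt⟩
  intro e he e' he' hne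
  rcases lt_or_gt_of_ne hne with h | h
  · exact key e he e' he' h
  · exact (key e' he' e he h).symm

/-- **every big cluster costs two** -/
theorem big_card (O G : Finset ℝ) (M w : ℝ → ℕ) {d : ℝ} (hM : ∀ x ∈ O, 1 ≤ M x)
    (hw1 : ∀ x ∈ O, 2 ≤ M x → 2 ≤ w x)
    (hw2 : ∀ x ∈ O, x ∉ G → 1 ≤ w x)
    (hG : ∀ x ∈ G, ∀ y ∈ O, y ≠ x → M y = 1 → d ≤ |x - y|) :
    2 * (bigE O M d).card ≤ ∑ x ∈ O, w x := by
  classical
  have hone : ∀ e ∈ bigE O M d, 2 ≤ ∑ x ∈ cl O d e, w x := by
    intro e he
    obtain ⟨heE, hbig⟩ := mem_bigE.mp he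
    have heO := (mem_lastE.mp heE).1
    have hself : e ∈ cl O d e := mem_cl.mpr ⟨heO, le_rfl, fun e' _ h => by linarith [h.1, h.2]⟩
    by_cases h2 : ∃ x ∈ cl O d e, 2 ≤ M x
    · obtain ⟨x, hx, hx2⟩ := h2
      have h3 := hw1 x (mem_cl.mp hx).1 hx2
      have h4 : w x ≤ ∑ x ∈ cl O d e, w x :=
        Finset.single_le_sum (f := fun x => w x) (fun _ _ => Nat.zero_le _) hx
      omega
    · push Not at h2
      have hM1 : ∀ x ∈ cl O d e, M x = 1 := fun x hx => by
        have h3 := h2 x hx
        have h4 := hM x (mem_cl.mp hx).1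
        omega
      have hne : cl O d e ≠ {e} := fun h => hbig ⟨h, hM1 e hself⟩
      obtain ⟨x, hx, hxe⟩ : ∃ x ∈ cl O d e, x ≠ e := by
        by_contra hcon
        push Not at hcon
        apply hne
        ext y
        rw [Finset.mem_singleton]
        exact ⟨fun hy => hcon y hy, fun hy => hy ▸ hself⟩
      obtain ⟨hxO, hxle, hxE⟩ := mem_cl.mp hx
      have hxlt : x < e := lt_of_le_of_ne hxle hxe
      have hxnE : x ∉ lastE O d := fun h => hxE x h ⟨le_rfl, hxlt⟩
      -- a neighbour of `x` in the cluster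
      have hnb : ∃ y ∈ cl O d e, x < y ∧ y < x + d := by
        rw [mem_lastE, not_and] at hxnE
        have h3 := hxnE hxO
        push Not at h3
        obtain ⟨y, hy, hy1, hy2⟩ := h3
        rcases le_or_gt y e with h4 | h4
        · exact ⟨y, mem_cl.mpr ⟨hy, h4, fun e' he' h5 => hxE e' he' ⟨by linarith [h5.1], h5.2⟩⟩,
            hy1, hy2⟩
        · exact ⟨e, hself, hxlt, by linarith⟩
      obtain ⟨y, hy, hy1, hy2⟩ := hnb
      have hxG : x ∉ G := by
        intro h
        have := hG x h y (mem_cl.mp hy).1 hy1.ne' (hM1 y hy)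
        rw [abs_sub_comm, abs_of_pos (by linarith)] at this
        linarith
      have hyG : y ∉ G := by
        intro h
        have := hG y h x hxO hy1.ne (hM1 x hx)
        rw [abs_of_pos (by linarith)] at this
        linarith
      have hsub : ({x, y} : Finset ℝ) ⊆ cl O d e := by
        intro z hz
        rw [Finset.mem_insert, Finset.mem_singleton] at hz
        rcases hz with rfl | rfl
        · exact hx
        · exact hy
      have h5 := hw2 x hxO hxG
      have h6 := hw2 y (mem_cl.mp hy).1 hyG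
      have h7 := Finset.sum_le_sum_of_subset_of_nonneg (f := w) hsub fun _ _ _ => Nat.zero_le _
      rw [Finset.sum_pair hy1.ne] at h7
      omega
  have h1 : (bigE O M d).card * 2 ≤ ∑ e ∈ bigE O M d, ∑ x ∈ cl O d e, w x := by
    rw [← smul_eq_mul, ← Finset.sum_const]
    exact Finset.sum_le_sum hone
  have h2 : ∑ e ∈ bigE O M d, ∑ x ∈ cl O d e, w x ≤ ∑ x ∈ O, w x := by
    rw [← Finset.sum_biUnion]
    · refine Finset.sum_le_sum_of_subset_of_nonneg ?_ fun _ _ _ => Nat.zero_le _
      intro x hx
      rw [Finset.mem_biUnion] at hx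
      obtain ⟨e, _, hx⟩ := hx
      exact (mem_cl.mp hx).1
    · intro e he e' he' hne
      exact cl_disj (bigE_sub O M d he) (bigE_sub O M d he') hne
  omega

end Pool.Agent.U73.NG
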